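import Pool.Agent.H98.S4.Targets

/-! MP_eb32d7_co, strong colouring for maximum degree two, module BE: the transversal of the other
blocks which hits the other cycles -/

set_option autoImplicit false

namespace Pool.Agent.H71.S4

open Finset Pool.Agent.H98.S4

/-- a fixed point of the operator of the proof (Knaster-Tarski) -/
theorem be_fix {V β κ : Type} (f : V → β) (cp : V → κ) (B : Finset β) (D : Finset κ)
    (S : Finset V) (φ : κ → β) :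
    ∃ A : Set κ, ∀ C, C ∈ A ↔ C ∈ D ∧ ∀ x ∈ S, cp x = C → f x ∉ B →
      ∃ C', C' ∈ D ∧ C' ∈ A ∧ φ C' = f x := by
  let T : Set κ →o Set κ :=
    { toFun := fun A => {C | C ∈ D ∧ ∀ x ∈ S, cp x = C → f x ∉ B →
        ∃ C', C' ∈ D ∧ C' ∈ A ∧ φ C' = f x}
      monotone' := by
        intro A A' hA C hC
        refine ⟨hC.1, fun x hx h1 h2 => ?_⟩
        obtain ⟨C', h3, h4, h5⟩ := hC.2 x hx h1 h2
        exact ⟨C', h3, hA h4, h5⟩ }
  refine ⟨OrderHom.lfp T, fun C => ?_⟩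
  have h : T (OrderHom.lfp T) = OrderHom.lfp T := OrderHom.map_lfp T
  constructor
  · intro hC
    rw [← h] at hC
    exact hC
  · intro hC
    rw [← h]
    exact hC

theorem s4_BE : T_BE := by
  classical
  intro V β κ _ _ _ _ G f cp B D S φ hadj hS hφ hinj
  obtain ⟨hS1, hS2, hS3⟩ := hS
  obtain ⟨A, hA⟩ := be_fix f cp B D S φ
  have hex : ∀ C : {C // C ∈ D}, ∃ v : V, cp v = C.1 ∧ f v = φ C.1 := fun C => (hφ C.1 C.2).2
  choose v hv1 hv2 using hex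
  let S' : Finset V := ((D.attach.filter (fun C => C.1 ∈ A)).image v) ∪
    S.filter (fun x => f x ∉ B ∧ ∀ C ∈ D, C ∈ A → φ C ≠ f x)
  have hmem : ∀ x, x ∈ S' ↔ (∃ C : {C // C ∈ D}, C.1 ∈ A ∧ v C = x) ∨
      (x ∈ S ∧ f x ∉ B ∧ ∀ C ∈ D, C ∈ A → φ C ≠ f x) := by
    intro x
    simp only [S', mem_union, mem_image, mem_filter, mem_attach, true_and]
  refine ⟨S', ?_, ?_, ?_, ?_, ?_⟩
  · intro x hx
    rcases (hmem x).1 hx with ⟨C, -, rfl⟩ | ⟨-, h, -⟩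
    · rw [hv2]
      exact (hφ C.1 C.2).1
    · exact h
  · intro w hw
    by_cases h : ∃ C : {C // C ∈ D}, C.1 ∈ A ∧ φ C.1 = f w
    · obtain ⟨C, hC, hCw⟩ := h
      exact ⟨v C, (hmem _).2 (Or.inl ⟨C, hC, rfl⟩), (hv2 C).trans hCw⟩
    · obtain ⟨x, hx, hxw⟩ := hS1 w
      refine ⟨x, (hmem x).2 (Or.inr ⟨hx, ?_, fun C hC hCA he => ?_⟩), hxw⟩
      · rw [hxw]
        exact hw
      · exact h ⟨⟨C, hC⟩, hCA, he.trans hxw⟩
  · intro x hx y hy hxy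
    rcases (hmem x).1 hx with ⟨C, hC, rfl⟩ | ⟨h1, h2, h3⟩
    · rcases (hmem y).1 hy with ⟨C', hC', rfl⟩ | ⟨h1, h2, h3⟩
      · rw [hv2, hv2] at hxy
        have := Subtype.ext (hinj C.2 C'.2 hxy)
        rw [this]
      · rw [hv2] at hxy
        exact absurd hxy (h3 C.1 C.2 hC)
    · rcases (hmem y).1 hy with ⟨C', hC', rfl⟩ | ⟨h1', h2', h3'⟩
      · rw [hv2] at hxy
        exact absurd hxy.symm (h3 C'.1 C'.2 hC')
      · exact hS2 x h1 y h1' hxy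
  · have key : ∀ (C : {C // C ∈ D}) (y : V), C.1 ∈ A → y ∈ S → f y ∉ B →
        (∀ C ∈ D, C ∈ A → φ C ≠ f y) → ¬ cp (v C) = cp y := by
      intro C y hC hy hyB h3 he
      rw [hv1] at he
      obtain ⟨C', h4, h5, h6⟩ := ((hA C.1).1 hC).2 y hy he.symm hyB
      exact h3 C' h4 h5 h6
    intro x hx y hy hxy
    rcases (hmem x).1 hx with ⟨C, hC, rfl⟩ | ⟨h1, h2, h3⟩
    · rcases (hmem y).1 hy with ⟨C', hC', rfl⟩ | ⟨h1, h2, h3⟩
      · have h4 := hadj _ _ hxy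
        rw [hv1, hv1] at h4
        rw [Subtype.ext h4] at hxy
        exact G.irrefl hxy
      · exact key C y hC h1 h2 h3 (hadj _ _ hxy)
    · rcases (hmem y).1 hy with ⟨C', hC', rfl⟩ | ⟨h1', h2', h3'⟩
      · exact key C' x hC' h1 h2 h3 (hadj _ _ hxy).symm
      · exact hS3 x h1 y h1' hxy
  · intro C hC
    by_cases hCA : C ∈ A
    · exact ⟨v ⟨C, hC⟩, (hmem _).2 (Or.inl ⟨⟨C, hC⟩, hCA, rfl⟩), hv1 ⟨C, hC⟩⟩
    · by_contra hcon
      refine hCA ((hA C).2 ⟨hC, fun x hx h1 h2 => ?_⟩)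
      by_contra h3
      refine hcon ⟨x, (hmem x).2 (Or.inr ⟨hx, h2, fun C' h4 h5 h6 => ?_⟩), h1⟩
      exact h3 ⟨C', h4, h5, h6⟩

end Pool.Agent.H71.S4
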